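import Mathlib
import Pool.Agent.K4H41.PC.Rigid

set_option autoImplicit false

/-!
# Piecewise conjugacy does not imply unitary equivalence of the C*-correspondences

Negative answer to Q1 of MP_7f766c_an (the Davidson-Katsoulis problem), with four maps on one
compact metrizable space.

The definitions (`DynSys`, `DynSys.pull`, `inner`, `DynSys.left`, `UnitarilyEquivalent`,
`PiecewiseConjugate`) are in `Pool/Agent/K4H41/PC/Defs.lean`.

Sketch. Let `Δ` be the simplex spanned by the permutations of `{0,1,2,3}`. For `A, B ⊆ {0,1,2,3}`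
let `Φ(A,B)` be the face of `Δ` spanned by the permutations `π` with `π(B) = A`.

* (`not_good`, `Core.lean`, `Core2.lean`) There is no continuous unitary valued `u : Δ → U(4)`
  such that for all `A, B` and all `x ∈ Φ(A,B)` the matrix `u(x)` is block diagonal, i.e.
  `u_ij(x) ≠ 0` implies `(j ∈ A ↔ i ∈ B)`. Take continuous logarithms of the entries `u_ij` on
  `Φ({j},{i})`, of the minors of `u` with rows `0, b` and columns `j, j'` (in `{0,1,2}`) on
  `Φ({j,j'},{0,b})` and of `det u` on `Δ`. At the vertices these define a potential whose difference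
  along an edge `(π, π ∘ (0 b))` is a number `c(π 0, π b; b) ∈ π + 2πℤ`, which depends on
  `π 0, π b, b` only. The hexagons `b, b', b, b', b, b'` give `Σ(b) + Σ(b') = 0` for
  `Σ(b) = c(0,1;b) + c(1,2;b) + c(2,0;b)` and `b ≠ b'` in `{1,2,3}`; so `Σ(b) = 0`, while
  `Σ(b) ∈ 3π + 2πℤ`.
* (`Space.lean`) `X = Δ ⊕ (Q ⊕ I)` with `Q = [0,1]^ℕ`, `I = [0,1]`. Both systems agree on `Q ⊕ I`:
  the map `0` is `z ↦ z_0 ∈ I` on `Q` and `t ↦ t/2` on `I`, the maps `1,2,3` are the shift on `Q`
  and `t ↦ (t+1)/2` on `I`. On `Δ` the maps `σ_j`, `τ_i` go into `Q` and are given by the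
  coordinates of `x` and by `h_{A,B}(x) 1[j ∈ A]`, `h_{A,B}(x) 1[i ∈ B]` respectively, where
  `h_{A,B}` is `1` on `Φ(A,B)` and is `0` at `x` as soon as `x_π > 1/30` for some `π` with
  `π(B) ≠ A`. The two systems are piecewise conjugate via the identity (`piecewise`).
* (`Defs.lean`, `Rigid.lean`) A unitary equivalence gives a continuous `g : X → X` and a
  continuous unitary matrix `u(x)` such that `u_ij(x) ≠ 0` implies `σ_j (g x) = g (τ_i x)`; the
  dynamics on `Q ⊕ I` force `g = id`, and `u` restricted to `Δ` contradicts `not_good`.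
-/

open K4H41.PC

namespace Pool.Agent.Results.MP_7f766c_an.FourMaps

/-- There are a compact metrizable space `X` and two classical multivariable dynamical systems
`σ`, `τ` on `X`, each with four maps, which are piecewise conjugate but whose
C*-correspondences are not unitarily equivalent. -/
theorem result :
    ∃ (X : Type) (_ : TopologicalSpace X) (_ : CompactSpace X) (_ : T2Space X)
      (_ : TopologicalSpace.MetrizableSpace X) (σ τ : DynSys 4 X),
      PiecewiseConjugate σ τ ∧ ¬ UnitarilyEquivalent σ τ :=
  ⟨XX, inferInstance, inferInstance, inferInstance, inferInstance, sSys, tSys, piecewise,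
    not_unitarily⟩

end Pool.Agent.Results.MP_7f766c_an.FourMaps
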